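import Pool.Agent.Run7.h381.WU.Stm
import Pool.Agent.TH830.J73
import Pool.Agent.TH830.J74

/-!
# POT and KIR: potentials and Kirchhoff's formula
-/

set_option autoImplicit false

namespace Run7.h299.WU

open Finset Pool.Agent.TH968.UST Pool.Agent.TH830.UST Run7.h381.WU
open Pool.Agent.TH830

section

variable {V : Type}

theorem dd_mk (φ ψ : V → ℝ) (a b : V) : dd φ ψ s(a, b) = (φ a - φ b) * (ψ a - ψ b) := rfl

theorem conn_le {r s : Setoid V} {T : Set (Sym2 V)} (hr : ∀ a b, r a b → s a b)
    (hT : ∀ a b, s(a, b) ∈ T → s a b) {a b : V} (h : Conn r T a b) : s a b := by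
  induction h with
  | rel a b h => exact h.elim (hr a b) (hT a b)
  | refl a => exact Setoid.refl' _ _
  | symm a b _ ih => exact Setoid.symm' _ ih
  | trans a b c _ _ ih1 ih2 => exact Setoid.trans' _ ih1 ih2

theorem glue_eq (r : Setoid V) (x y : V) : glue r x y = J74.contr r s(x, y) := by
  refine le_antisymm ?_ ?_
  · refine sup_le (fun a b h => crel h) ?_
    refine (Setoid.eqvGen_le (s := J74.contr r s(x, y)) ?_)
    rintro a b ⟨h1, h2⟩
    subst h1
    subst h2
    exact (cedge rfl : Conn r {s(a, b)} a b)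
  · intro a b h
    have h1 : ∀ a b, r a b → glue r x y a b := fun a b h =>
      (le_sup_left : r ≤ glue r x y) h
    have h2 : (glue r x y) x y :=
      (le_sup_right : Relation.EqvGen.setoid (fun a b => a = x ∧ b = y) ≤ glue r x y)
        (Relation.EqvGen.rel _ _ ⟨rfl, rfl⟩)
    refine conn_le h1 ?_ (h : Conn r {s(x, y)} a b)
    intro a b h
    rcases Sym2.eq_iff.1 (Set.mem_singleton_iff.1 h) with ⟨rfl, rfl⟩ | ⟨rfl, rfl⟩
    · exact h2
    · exact Setoid.symm' _ h2

/-- a loop is in no tree -/
theorem trees_loop [DecidableEq V] {r : Setoid V} (E : Finset (Sym2 V)) {x y : V} (h : r x y) :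
    trees r (E.erase s(x, y)) = trees r E := by
  ext T
  constructor
  · intro hT
    obtain ⟨h1, h2, h3⟩ := mem_trees.1 hT
    refine mem_trees.2 ⟨h1.trans (Finset.erase_subset _ _), ?_, h3⟩
    intro c d hcd
    by_cases hh : s(c, d) = s(x, y)
    · rcases Sym2.eq_iff.1 hh with ⟨rfl, rfl⟩ | ⟨rfl, rfl⟩
      · exact crel h
      · exact csymm (crel h)
    · exact h2 c d (Finset.mem_erase.2 ⟨hh, hcd⟩)
  · intro hT
    obtain ⟨h1, h2, h3⟩ := mem_trees.1 hT
    have hn := J74.notMem_of_rel hT h
    refine mem_trees.2 ⟨fun e he => Finset.mem_erase.2 ⟨fun k => hn (k ▸ he), h1 he⟩, ?_, h3⟩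
    intro c d hcd
    exact h2 c d (Finset.mem_of_mem_erase hcd)

/-- the trees that contain an edge -/
theorem card_mem [DecidableEq V] {r : Setoid V} {E : Finset (Sym2 V)} {x y : V}
    (hf : s(x, y) ∈ E) (hr : ¬ r x y) :
    ((trees r E).filter (fun T => s(x, y) ∈ T)).card =
      (trees (J74.contr r s(x, y)) (E.erase s(x, y))).card := by
  refine Finset.card_bij' (fun T _ => T.erase s(x, y)) (fun T _ => Insert.insert s(x, y) T)
    ?_ ?_ ?_ ?_
  · intro T hT
    obtain ⟨h1, h2⟩ := Finset.mem_filter.1 hT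
    exact J74.erase_mem h1 h2
  · intro T hT
    exact Finset.mem_filter.2 ⟨(J74.insert_mem hf hr hT).1, Finset.mem_insert_self _ _⟩
  · intro T hT
    exact Finset.insert_erase (Finset.mem_filter.1 hT).2
  · intro T hT
    exact Finset.erase_insert (J74.insert_mem hf hr hT).2

/-- the trees that do not contain an edge -/
theorem card_notMem [DecidableEq V] {r : Setoid V} {E : Finset (Sym2 V)} {x y : V}
    (hn : s(x, y) ∉ E) (hc : Conn r (E : Set (Sym2 V)) x y) :
    ((trees r (Insert.insert s(x, y) E)).filter (fun T => ¬ s(x, y) ∈ T)).card =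
      (trees r E).card := by
  have h1 : (Insert.insert s(x, y) E).erase s(x, y) = E := Finset.erase_insert hn
  have h2 : ∀ T, T ∈ trees r E ↔ T ∈ trees r (Insert.insert s(x, y) E) ∧ s(x, y) ∉ T := by
    intro T
    have h3 := J74.mem_erase_iff (r := r) (E := Insert.insert s(x, y) E) (a := x) (b := y)
      (by rw [h1]; exact hc) T
    rw [h1] at h3
    exact h3
  congr 1
  ext T
  rw [Finset.mem_filter, h2]

/-- the potential, in all cases, with the value of the difference -/
theorem pot_aux (r : Setoid V) (E : Finset (Sym2 V)) (x y : V)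
    (hr : ¬ r x y) (hc : Conn r (E : Set (Sym2 V)) x y) :
    ∃ φ : V → ℝ, IsPot r E x y φ ∧ φ y = 0 ∧ (∀ v, 0 ≤ φ v ∧ φ v ≤ φ x) ∧
      ((trees (glue r x y) E).card : ℝ) = (φ x - φ y) * (trees r E).card := by
  classical
  by_cases he : s(x, y) ∈ E
  · set M : ℝ := (((trees r E).filter (fun T => s(x, y) ∈ T)).card : ℝ) with hM
    have hN : (0 : ℝ) < ((trees r E).card : ℝ) := J74.card_pos' r E
    refine ⟨fun v => J73.cnt r E s(x, y) x v / (trees r E).card, ⟨?_, ?_⟩, ?_, ?_, ?_⟩
    · intro a b h
      simp only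
      rw [J73.cnt_rel r E _ x a b h]
    · intro ψ hψ
      have h := J73.bilin r E he ψ hψ
      unfold DF
      have h2 : ∀ f ∈ E, dd (fun v => J73.cnt r E s(x, y) x v / (trees r E).card) ψ f =
          J73.dpr (fun v => J73.cnt r E s(x, y) x v) ψ f / (trees r E).card := by
        intro f _
        induction f using Sym2.ind with
        | _ a b =>
          rw [dd_mk, J73.dpr_mk]
          ring
      rw [Finset.sum_congr rfl h2, ← Finset.sum_div, h]
      field_simp
    · simp only
      rw [J73.cnt_other, zero_div]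
    · intro v
      refine ⟨div_nonneg (Finset.sum_nonneg fun T _ => J73.ic_nonneg _ _ _ _) hN.le, ?_⟩
      refine div_le_div_of_nonneg_right ?_ hN.le
      refine Finset.sum_le_sum fun T _ => ?_
      rw [J73.ic_one (crefl _ _ _)]
      exact J73.ic_le_one _ _ _ _
    · simp only
      rw [J73.cnt_self, J73.cnt_other, card_mem he hr, glue_eq, trees_loop]
      · field_simp
        ring
      · exact (cedge rfl : Conn r {s(x, y)} x y)
  · set E' : Finset (Sym2 V) := Insert.insert s(x, y) E with hE'
    have heE : s(x, y) ∈ E' := Finset.mem_insert_self _ _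
    have hE1 : E'.erase s(x, y) = E := Finset.erase_insert he
    have hM : (((trees r E').filter (fun T => s(x, y) ∈ T)).card : ℝ) =
        (trees (glue r x y) E).card := by
      rw [card_mem heE hr, glue_eq, hE1]
    have hN' : ((trees r E').card : ℝ) = (trees (glue r x y) E).card + (trees r E).card := by
      rw [← hM, ← card_notMem (r := r) he hc]
      have := Finset.card_filter_add_card_filter_not (s := trees r E') (fun T => s(x, y) ∈ T)
      rw [← this]
      push_cast
      rfl
    have hN : (0 : ℝ) < ((trees r E).card : ℝ) := J74.card_pos' r E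
    refine ⟨fun v => J73.cnt r E' s(x, y) x v / (trees r E).card, ⟨?_, ?_⟩, ?_, ?_, ?_⟩
    · intro a b h
      simp only
      rw [J73.cnt_rel r E' _ x a b h]
    · intro ψ hψ
      have h := J73.bilin r E' heE ψ hψ
      rw [hE', Finset.sum_insert he, ← hE', J73.dpr_mk, J73.cnt_self, J73.cnt_other, hM, hN'] at h
      unfold DF
      have h2 : ∀ f ∈ E, dd (fun v => J73.cnt r E' s(x, y) x v / (trees r E).card) ψ f =
          J73.dpr (fun v => J73.cnt r E' s(x, y) x v) ψ f / (trees r E).card := by
        intro f _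
        induction f using Sym2.ind with
        | _ a b =>
          rw [dd_mk, J73.dpr_mk]
          ring
      rw [Finset.sum_congr rfl h2, ← Finset.sum_div]
      rw [div_eq_iff hN.ne']
      linear_combination h
    · simp only
      rw [J73.cnt_other, zero_div]
    · intro v
      refine ⟨div_nonneg (Finset.sum_nonneg fun T _ => J73.ic_nonneg _ _ _ _) hN.le, ?_⟩
      refine div_le_div_of_nonneg_right ?_ hN.le
      refine Finset.sum_le_sum fun T _ => ?_
      rw [J73.ic_one (crefl _ _ _)]
      exact J73.ic_le_one _ _ _ _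
    · simp only
      rw [J73.cnt_self, J73.cnt_other, hM]
      field_simp
      ring

end

theorem POT : S_POT := by
  intro V r E x y hc
  by_cases hr : r x y
  · refine ⟨fun _ => 0, ⟨fun _ _ _ => rfl, fun ψ hψ => ?_⟩, rfl, fun _ => ⟨le_rfl, le_rfl⟩⟩
    rw [hψ x y hr, sub_self]
    unfold DF
    refine Finset.sum_eq_zero fun f _ => ?_
    induction f using Sym2.ind with
    | _ a b =>
      rw [dd_mk]
      ring
  · obtain ⟨φ, h1, h2, h3, -⟩ := pot_aux r E x y hr hc
    exact ⟨φ, h1, h2, h3⟩

theorem KIR : S_KIR := by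
  intro V r E x y φ hr hc hφ
  obtain ⟨ψ, h1, -, -, h4⟩ := pot_aux r E x y hr hc
  rw [h4]
  congr 1
  have h5 := hφ.2 ψ h1.1
  have h6 := h1.2 φ hφ.1
  have h7 : DF E φ ψ = DF E ψ φ := by
    unfold DF
    refine Finset.sum_congr rfl fun f _ => ?_
    induction f using Sym2.ind with
    | _ a b =>
      rw [dd_mk, dd_mk]
      ring
  rw [← h5, ← h6, h7]

end Run7.h299.WU
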